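import Pool.Agent.Helper3K.TG.Der

/-!
# One-variable equations in one-relator groups: nested commutators suffice

Is the single one-variable equation problem decidable for every one-relator group (Q1)? We show that
this is the case for every one-relator group and every equation if it is the case for the two-generator
one-relator groups `⟨X, Y | R⟩` with a relator `R` in the `d`-th derived subgroup `F^(d)` of the free group
`F` with basis `X`, `Y`, and for the equations

  `[…[[v(x), c₁], c₂], …, c_k] = 1`,  `c₁, …, c_k ∈ F^(d)`,

where `d` and `k` are arbitrary fixed numbers. For `k ≤ d` the left hand sides are in the `k`-th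
derived subgroup of the free group with basis `X`, `Y`, `x` (`nested_mem`), so that every `x` is a
solution in all solvable quotients of derived length at most `k`; for `k = d` this holds for the relator
and for the equation.

Proof. (i) An equation `u(x) = 1` is solvable over `G` if and only if `[u(x), e] = 1` is solvable over the
one-relator group `G * ⟨e, s, t⟩`: if `u(h)` commutes with `e`, then it is killed by the retraction onto `G`.
(ii) By `TwoGenerators` each one-relator group `G = ⟨x_1, …, x_n | r⟩` can be replaced by
`⟨X, Y | r(V_1, …, V_n)⟩`, `V_i ∈ F^(d)`, if `V_i` is put for `x_i` in the equations. The steps (i) and (ii)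
are iterated. So the problem for a one-relator group `G` is even many-one reducible to the
restricted problem for one group `⟨X, Y | R⟩` (`Pool.Agent.Helper3K.TG.exists_nested`).
-/

set_option autoImplicit false

namespace Pool.Agent.Results.MP_1ebeae_al.NestedCommutators

open Pool.Agent.N582.BS Pool.Agent.Helper3K.TG

/-- For all `d` and `k`: the single one-variable equation problem is decidable for every one-relator
group if and only if for each element `R` of the `d`-th derived subgroup of the free group `F` with basis
`X`, `Y` there is an algorithm `A` which decides the solvability in `⟨X, Y | R⟩` of all equations `w = 1`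
which are nested commutators `[…[[v, c₁], c₂], …, c_k] = 1` with `c₁, …, c_k` in the `d`-th derived
subgroup of `F` and `v` in the free group with basis `X`, `Y`, `x` (see `Nested`). -/
theorem result (d k : ℕ) :
    (∀ (n : ℕ) (r : FreeGroup (Fin n)), ComputablePred (OneVarEq r)) ↔
      ∀ R ∈ derivedSeries (FreeGroup (Fin 2)) d,
        ∃ A : List (Option (Fin 2) × Bool) → Bool, Computable A ∧
          ∀ w, Nested d k (FreeGroup.mk w) → (A w = true ↔ OneVarEq R w) := by
  constructor
  · intro h R _
    obtain ⟨A, hA, hA2⟩ := ComputablePred.computable_iff.1 (h 2 R)
    refine ⟨A, hA, fun w _ => ?_⟩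
    rw [hA2]
  · intro h n r
    obtain ⟨R, hR, T, hT, hTw⟩ := exists_nested d k r
    obtain ⟨A, hA, hA2⟩ := h R hR
    refine ComputablePred.computable_iff.2 ⟨fun w => A (T w), hA.comp hT.to_comp, ?_⟩
    funext w
    exact propext ((hTw w).2.trans (hA2 (T w) (hTw w).1).symm)

end Pool.Agent.Results.MP_1ebeae_al.NestedCommutators
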