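import Pool.Agent.Helper3K.OV.Comp

/-!
# Finite systems of one-variable equations reduce to single ones

Let `G = ⟨x_0, …, x_{n-1} | r⟩`, and let `u_0, …, u_{k-1}` be words with constants from `G` in the
variable `x`. Let `e`, `s`, `t` be three new free generators. The reduction maps the system
`u_0 = … = u_{k-1} = 1` over `G` to the single equation

`∏_{a < 3k} f_a [u_{a mod k}(x), e] f_a⁻¹ = 1`,  with `f_a = s ^ (2 ^ a) t ^ (4 ^ a)`,

over the one-relator group `G * ⟨e, s, t⟩`.

* A solution of the system in `G` is a solution of the equation.
* Let `x` be a solution of the equation in `G * ⟨e, s, t⟩`, and let `w ∈ ℤ²` be the pair of its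
  exponent sums in `s` and `t`. Let `λ : ℤ² → ℤ` be a nonzero homomorphism with `λ w = 0`. There is
  a homomorphism from `G * ⟨e, s, t⟩` to the wreath product of `G * ⟨e⟩` with `ℤ`, such that `G` and
  `e` are mapped to the coordinate `0` and `s` and `t` to translations, and such that the image of
  `x` is in the base group. Each equation has three places `a`, `a + k`, `a + 2k`, and one of
  them is shared with no other place, because a line has at most one direction of the form
  `f_a - f_b`. So each of the commutators `[u_i(y), e]` is trivial, where `y ∈ G * ⟨e⟩` is the
  component of the image of `x` at the coordinate `0`.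
* The elements of `G * ⟨e⟩` which commute with `e` are killed by the retraction onto `G`, so that the
  image of `y` in `G` is a solution of the system.
-/

set_option autoImplicit false

namespace Pool.Agent.Results.MP_1ebeae_al.SystemsOfEquations

open Pool.Agent.N582.BS Pool.Agent.Helper3K.OV

/-- For each one-relator group `G = ⟨x_0, …, x_{n-1} | r⟩` the problem of the solvability in `G` of
finite systems of one-variable equations over `G` is many-one reducible to the single one-variable
equation problem for the one-relator group `G * F_3`. So the single one-variable equation problem is
decidable for every one-relator group if and only if the solvability of finite systems of one-variable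
equations is decidable for every one-relator group. -/
theorem result :
    (∀ (n : ℕ) (r : FreeGroup (Fin n)), ManyOneReducible (SolvesAll r) (OneVarEq (rel3 r))) ∧
    ((∀ (n : ℕ) (r : FreeGroup (Fin n)), ComputablePred (OneVarEq r)) ↔
      ∀ (n : ℕ) (r : FreeGroup (Fin n)), ComputablePred (SolvesAll r)) := by
  refine ⟨fun n r => system_reducible r, fun h n r => ?_, fun h n r => ?_⟩
  · exact ComputablePred.computable_of_manyOneReducible (system_reducible r) (h (n + 3) (rel3 r))
  · exact ComputablePred.computable_of_manyOneReducible (oneVarEq_reducible r) (h n r)

end Pool.Agent.Results.MP_1ebeae_al.SystemsOfEquations
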