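import Pool.Agent.Helper3K.TG.Main

/-!
# Reduction to two generators and to relators deep in the derived series

Let `G = ⟨x_1, …, x_n | r⟩`, let `F` be free on `X`, `Y`, and let `m = 2n`. For `j < m` let `w_j` be
the product of five conjugates `z_a [X, Y] z_a⁻¹`, `a = j, j + m, …, j + 4m`, where
`z_a = X ^ (A ^ (a + 1)) Y ^ (M ^ (a + 1))` for suitable numbers `A` and `M` (with `M` much larger
than `A`). Put `V_i = [w_i, w_{n+i}]` and `H = ⟨X, Y | r(V_1, …, V_n)⟩`.

Let `h ∈ H`. We show that there is a `g ∈ G` such that all equations over `G` which are satisfied by
`h` (with `V_i` in place of `x_i`) are satisfied by `g`. There are two steps, by way of the group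
`G' = ⟨y_i, z_i | r([y_1, z_1], …, [y_n, z_n])⟩`. In both steps the element `h` is mapped to the base
group of a wreath product `P wr B` with an abelian group `B`, by a homomorphism for which each
constant is mapped to the base group and has the right component at the coordinate `1`; the component
of the image of `h` at the coordinate `1` is the wanted element of `P`.

* For `G'`, `B = ℤ^n`. One of the two generators of a pair is mapped to a function which is constant
  on a ray, such that the commutator is mapped to a function with only one nontrivial value.
* For `H`, `B = ℤ`: the pair of the exponent sums of `h` is in the kernel of a nonzero homomorphism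
  `λ : ℤ² → ℤ`. The generator `X` (or `Y`) is mapped to a function with finite support, such that
  each `w_j` has the right component at `1`. At each other coordinate the components of the `w_j`
  commute with each other, so that the relator, which is a product of commutators of the `w_j`, is
  mapped to `1`. For this, each `w_j` has five places: for each `λ` there is a set of at most four
  bad places.

The step is iterated, so that the words `V_i` are in an arbitrary derived subgroup of `F`.
-/

set_option autoImplicit false

namespace Pool.Agent.Results.MP_1ebeae_al.TwoGenerators

open Pool.Agent.N582.BS Pool.Agent.Helper3K.OV Pool.Agent.Helper3K.TG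

/-- Let `F` be the free group of rank two. For each one-relator group `G = ⟨x_1, …, x_n | r⟩` and each
`d` there are words `V_1, …, V_n` in the `d`-th derived subgroup of `F` such that `x_i ↦ V_i` defines
an embedding of `G` in the two-generator one-relator group `H = ⟨X, Y | r(V_1, …, V_n)⟩`, and such
that for each `h ∈ H` there is a `g ∈ G` which satisfies all one-variable equations over `G` which `h`
satisfies in `H`. So an equation, or a finite system of equations, is solvable over `G` if and only if the
equations which one obtains by the substitution of `V_i` for `x_i` are solvable over `H`. -/
theorem result (d n : ℕ) (r : FreeGroup (Fin n)) :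
    ∃ V : Fin n → FreeGroup (Fin 2),
      (∀ i, V i ∈ derivedSeries (FreeGroup (Fin 2)) d) ∧
      (∃ j : OneRel r →* OneRel (FreeGroup.lift V r), Function.Injective j ∧
        ∀ i, j (PresentedGroup.of i) =
          ev (fun k => (PresentedGroup.of k : OneRel (FreeGroup.lift V r))) (V i).toWord) ∧
      (∀ h : OneRel (FreeGroup.lift V r), ∃ g : OneRel r, ∀ u : List (Option (Fin n) × Bool),
        evalAt (FreeGroup.lift V r) h (subst (fun i => (V i).toWord) u) = 1 → evalAt r g u = 1) ∧
      ∀ us : List (List (Option (Fin n) × Bool)),
        SolvesAll r us ↔ SolvesAll (FreeGroup.lift V r) (us.map (subst (fun i => (V i).toWord))) := by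
  obtain ⟨V, hV, hS⟩ := exists_shadow d r
  obtain ⟨j, h1, h2, h3⟩ := embedding r V hS
  exact ⟨V, hV, ⟨j, h1, h2⟩, h3, fun us => solvesAll_iff r _ _ j h2 h3 us⟩

end Pool.Agent.Results.MP_1ebeae_al.TwoGenerators
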